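import Mathlib
import Pool.Agent.H.MP_25f4f2_al.A

set_option autoImplicit false
set_option linter.unusedSimpArgs false
set_option linter.unusedVariables false
set_option linter.unusedTactic false
set_option linter.unreachableTactic false

namespace Pool.Agent.H.MP_f9eabf_al

open Matrix

noncomputable def pm {n k : ℕ} (A : Matrix (Fin n) (Fin n) ℂ) (α : Fin k → Fin n) : ℝ :=
  (A.submatrix α α).det.re

def HP {n : ℕ} (A : Matrix (Fin n) (Fin n) ℂ) : Prop :=
  ∀ (k : ℕ) (α : Fin (k + 1) → Fin n), StrictMono α →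
    (A.submatrix α α).det.im = 0 ∧ 0 < (A.submatrix α α).det.re

def HS {n : ℕ} (A : Matrix (Fin n) (Fin n) ℂ) : Prop :=
  ∀ (k : ℕ) (α β : Fin k → Fin n), StrictMono α → StrictMono β →
    (Finset.univ.image α ∩ Finset.univ.image β).card + 1 = k →
    ((A.submatrix α β).det * (A.submatrix β α).det).im = 0 ∧
      0 ≤ ((A.submatrix α β).det * (A.submatrix β α).det).re

lemma pm_eq {n k : ℕ} {A : Matrix (Fin n) (Fin n) ℂ} (h : HP A) (α : Fin (k + 1) → Fin n)
    (ha : StrictMono α) : (pm A α : ℂ) = (A.submatrix α α).det :=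
  Complex.ext rfl (by simp [(h k α ha).1])

lemma pm_pos {n k : ℕ} {A : Matrix (Fin n) (Fin n) ℂ} (h : HP A) (α : Fin (k + 1) → Fin n)
    (ha : StrictMono α) : 0 < pm A α := (h k α ha).2

lemma sub0 {n : ℕ} {A : Matrix (Fin n) (Fin n) ℂ} (h : HP A) (h' : HS A) (α β : Fin 1 → Fin n)
    (δ : Fin 2 → Fin n) (H : StrictMono α ∧ StrictMono β ∧ StrictMono δ ∧
      (Finset.univ.image α ∩ Finset.univ.image β).card + 1 = 1)
    (hid : (A.submatrix α β).det * (A.submatrix β α).det =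
      (A.submatrix α α).det * (A.submatrix β β).det - (A.submatrix δ δ).det) :
    pm A δ ≤ pm A α * pm A β := by
  obtain ⟨ha, hb, hd, hc⟩ := H
  have := (h' _ α β ha hb hc).2
  rw [hid, ← pm_eq h α ha, ← pm_eq h β hb, ← pm_eq h δ hd] at this
  norm_cast at this
  linarith

lemma sub1 {n k : ℕ} {A : Matrix (Fin n) (Fin n) ℂ} (h : HP A) (h' : HS A)
    (α β : Fin (k + 2) → Fin n) (γ : Fin (k + 1) → Fin n) (δ : Fin (k + 3) → Fin n)
    (H : StrictMono α ∧ StrictMono β ∧ StrictMono γ ∧ StrictMono δ ∧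
      (Finset.univ.image α ∩ Finset.univ.image β).card + 1 = k + 2)
    (hid : (A.submatrix α β).det * (A.submatrix β α).det =
      (A.submatrix α α).det * (A.submatrix β β).det -
        (A.submatrix γ γ).det * (A.submatrix δ δ).det) :
    pm A γ * pm A δ ≤ pm A α * pm A β := by
  obtain ⟨ha, hb, hg, hd, hc⟩ := H
  have := (h' _ α β ha hb hc).2
  rw [hid, ← pm_eq h α ha, ← pm_eq h β hb, ← pm_eq h γ hg, ← pm_eq h δ hd] at this
  norm_cast at this
  linarith

lemma chain0 {i j ij jk ijk : ℝ} (hi : 0 < i) (hj : 0 < j) (hjk : 0 < jk)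
    (h1 : ij ≤ i * j) (h2 : j * ijk ≤ ij * jk) : ijk ≤ i * jk := by
  have : j * ijk ≤ j * (i * jk) := by nlinarith
  exact le_of_mul_le_mul_left this hj

lemma chain1 {i ij ik ijk ikl d : ℝ} (hi : 0 < i) (hik : 0 < ik) (hikl : 0 < ikl)
    (h1 : i * ijk ≤ ij * ik) (h2 : ik * d ≤ ijk * ikl) : i * d ≤ ij * ikl := by
  have : ik * (i * d) ≤ ik * (ij * ikl) := by nlinarith
  exact le_of_mul_le_mul_left this hik

lemma hur4 (a b c d : ℝ) (ha : 0 < a) (hb : 0 < b) (hc : 0 < c) (hd : 0 < d)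
    (h : c ^ 2 + a ^ 2 * d < a * b * c) (z : ℂ)
    (hz : z ^ 4 - a * z ^ 3 + b * z ^ 2 - c * z + d = 0) : 0 < z.re := by
  by_contra hx
  push Not at hx
  obtain ⟨x, hx'⟩ : ∃ x, x = -z.re := ⟨_, rfl⟩
  have hx0 : 0 ≤ x := by linarith
  have e : z.re = -x := by linarith
  have h1 := congrArg Complex.re hz
  have h2 := congrArg Complex.im hz
  simp [pow_succ, e] at h1 h2
  generalize z.im = y at h1 h2
  by_cases hy : y = 0
  · subst hy
    have : 0 < x ^ 4 + a * x ^ 3 + b * x ^ 2 + c * x + d := by positivity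
    nlinarith
  · obtain ⟨t, ht⟩ : ∃ t, t = x ^ 2 + y ^ 2 := ⟨_, rfl⟩
    obtain ⟨u, hu⟩ : ∃ u, u = a + 2 * x := ⟨_, rfl⟩
    obtain ⟨v, hv⟩ : ∃ v, v = b - t + 2 * x * u := ⟨_, rfl⟩
    have r1 : c = -2 * x * v + t * u := by
      apply mul_left_cancel₀ hy
      subst hv hu ht
      linarith
    have r0 : d = t * v := by
      subst hv hu ht
      linear_combination h1 - x * r1
    have k : a * b * c - c ^ 2 - a ^ 2 * d = -(2 * x * u * ((t - v) ^ 2 + a * c)) := by
      have ea : a = u - 2 * x := by linarith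
      have eb : b = v + t - 2 * x * u := by linarith
      rw [r0, r1, eb, ea]
      ring
    have : 0 ≤ 2 * x * u * ((t - v) ^ 2 + a * c) := by
      have : 0 ≤ u := by linarith
      positivity
    linarith

lemma hur3 (a b c : ℝ) (ha : 0 < a) (hb : 0 < b) (hc : 0 < c) (h : c < a * b) (z : ℂ)
    (hz : z ^ 3 - a * z ^ 2 + b * z - c = 0) : 0 < z.re := by
  refine hur4 (a + 1) (b + a) (c + b) c (by positivity) (by positivity) (by positivity) hc ?_ z
    (by push_cast; linear_combination (z - 1) * hz)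
  have : 0 < (a * b - c) * (a + b + c + 1) := mul_pos (by linarith) (by positivity)
  nlinarith

lemma hur2 (a b : ℝ) (ha : 0 < a) (hb : 0 < b) (z : ℂ) (hz : z ^ 2 - a * z + b = 0) :
    0 < z.re := by
  refine hur3 (a + 1) (b + a) b (by positivity) (by positivity) hb (by nlinarith) z
    (by push_cast; linear_combination (z - 1) * hz)

lemma spec_iff {n : ℕ} (A : Matrix (Fin n) (Fin n) ℂ) (z : ℂ) (h : z ∈ spectrum ℂ A) :
    (Matrix.of fun i j => (if i = j then z else 0) - A i j).det = 0 := by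
  rw [spectrum.mem_iff, Matrix.isUnit_iff_isUnit_det, isUnit_iff_ne_zero, not_not] at h
  refine Eq.trans ?_ h
  congr 1

lemma char1 {A : Matrix (Fin 1) (Fin 1) ℂ} (h : HP A) (z : ℂ) (hz : z ∈ spectrum ℂ A) :
    z ^ 1 - ((pm A ![0]) : ℝ) = 0 := by
  rw [← spec_iff A z hz]
  push_cast
  rw [pm_eq h ![0] (by decide)]
  (repeat rw [Pool.Agent.H.MP_25f4f2_al.det4]); (repeat rw [Matrix.det_fin_three]); (repeat rw [Matrix.det_fin_two]); (repeat rw [Matrix.det_fin_one]); simp
  try ring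

lemma stable1 {A : Matrix (Fin 1) (Fin 1) ℂ} (h : HP A) (h' : HS A) (z : ℂ)
    (hz : z ∈ spectrum ℂ A) : 0 < z.re := by
  have hc := char1 h z hz
  have p0 := pm_pos h ![0] (by decide)
  have := congrArg Complex.re hc
  simp at this
  linarith

lemma char2 {A : Matrix (Fin 2) (Fin 2) ℂ} (h : HP A) (z : ℂ) (hz : z ∈ spectrum ℂ A) :
    z ^ 2 - ((pm A ![0] + pm A ![1]) : ℝ) * z + ((pm A ![0, 1]) : ℝ) = 0 := by
  rw [← spec_iff A z hz]
  push_cast
  rw [pm_eq h ![0] (by decide), pm_eq h ![1] (by decide), pm_eq h ![0, 1] (by decide)]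
  (repeat rw [Pool.Agent.H.MP_25f4f2_al.det4]); (repeat rw [Matrix.det_fin_three]); (repeat rw [Matrix.det_fin_two]); (repeat rw [Matrix.det_fin_one]); simp
  try ring

lemma stable2 {A : Matrix (Fin 2) (Fin 2) ℂ} (h : HP A) (h' : HS A) (z : ℂ)
    (hz : z ∈ spectrum ℂ A) : 0 < z.re := by
  have hc := char2 h z hz
  have p0 := pm_pos h ![0] (by decide)
  have p1 := pm_pos h ![1] (by decide)
  have p01 := pm_pos h ![0, 1] (by decide)
  exact hur2 _ _ (by positivity) p01 z hc

lemma char3 {A : Matrix (Fin 3) (Fin 3) ℂ} (h : HP A) (z : ℂ) (hz : z ∈ spectrum ℂ A) :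
    z ^ 3 - ((pm A ![0] + pm A ![1] + pm A ![2]) : ℝ) * z ^ 2 + ((pm A ![0, 1] + pm A ![0, 2] + pm A ![1, 2]) : ℝ) * z - ((pm A ![0, 1, 2]) : ℝ) = 0 := by
  rw [← spec_iff A z hz]
  push_cast
  rw [pm_eq h ![0] (by decide), pm_eq h ![1] (by decide), pm_eq h ![2] (by decide), pm_eq h ![0, 1] (by decide), pm_eq h ![0, 2] (by decide), pm_eq h ![1, 2] (by decide), pm_eq h ![0, 1, 2] (by decide)]
  (repeat rw [Pool.Agent.H.MP_25f4f2_al.det4]); (repeat rw [Matrix.det_fin_three]); (repeat rw [Matrix.det_fin_two]); (repeat rw [Matrix.det_fin_one]); simp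
  try ring

lemma stable3 {A : Matrix (Fin 3) (Fin 3) ℂ} (h : HP A) (h' : HS A) (z : ℂ)
    (hz : z ∈ spectrum ℂ A) : 0 < z.re := by
  have hc := char3 h z hz
  have p0 := pm_pos h ![0] (by decide)
  have p1 := pm_pos h ![1] (by decide)
  have p2 := pm_pos h ![2] (by decide)
  have p01 := pm_pos h ![0, 1] (by decide)
  have p02 := pm_pos h ![0, 2] (by decide)
  have p12 := pm_pos h ![1, 2] (by decide)
  have p012 := pm_pos h ![0, 1, 2] (by decide)
  have s0_1 := sub0 h h' ![0] ![1] ![0, 1] (by decide)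
    (by (repeat rw [Pool.Agent.H.MP_25f4f2_al.det4]); (repeat rw [Matrix.det_fin_three]); (repeat rw [Matrix.det_fin_two]); (repeat rw [Matrix.det_fin_one]); simp; try ring)
  have s0_2 := sub0 h h' ![0] ![2] ![0, 2] (by decide)
    (by (repeat rw [Pool.Agent.H.MP_25f4f2_al.det4]); (repeat rw [Matrix.det_fin_three]); (repeat rw [Matrix.det_fin_two]); (repeat rw [Matrix.det_fin_one]); simp; try ring)
  have s1_2 := sub0 h h' ![1] ![2] ![1, 2] (by decide)
    (by (repeat rw [Pool.Agent.H.MP_25f4f2_al.det4]); (repeat rw [Matrix.det_fin_three]); (repeat rw [Matrix.det_fin_two]); (repeat rw [Matrix.det_fin_one]); simp; try ring)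
  have s01_02 := sub1 h h' ![0, 1] ![0, 2] ![0] ![0, 1, 2] (by decide)
    (by (repeat rw [Pool.Agent.H.MP_25f4f2_al.det4]); (repeat rw [Matrix.det_fin_three]); (repeat rw [Matrix.det_fin_two]); (repeat rw [Matrix.det_fin_one]); simp; ring)
  have s01_12 := sub1 h h' ![0, 1] ![1, 2] ![1] ![0, 1, 2] (by decide)
    (by (repeat rw [Pool.Agent.H.MP_25f4f2_al.det4]); (repeat rw [Matrix.det_fin_three]); (repeat rw [Matrix.det_fin_two]); (repeat rw [Matrix.det_fin_one]); simp; ring)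
  have s02_12 := sub1 h h' ![0, 2] ![1, 2] ![2] ![0, 1, 2] (by decide)
    (by (repeat rw [Pool.Agent.H.MP_25f4f2_al.det4]); (repeat rw [Matrix.det_fin_three]); (repeat rw [Matrix.det_fin_two]); (repeat rw [Matrix.det_fin_one]); simp; ring)
  have t0_12 := chain0 p0 p1 p12 s0_1 s01_12
  have t1_02 := chain0 p1 p0 p02 (s0_1.trans_eq (mul_comm _ _)) s01_02
  have t2_01 := chain0 p2 p0 p01 (s0_2.trans_eq (mul_comm _ _)) (s01_02.trans_eq (mul_comm _ _))
  refine hur3 _ _ _ (by positivity) (by positivity) p012 ?_ z hc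
  nlinarith [mul_pos p0 p01, mul_pos p0 p02, mul_pos p1 p01, mul_pos p1 p12, mul_pos p2 p02, mul_pos p2 p12]

lemma char4 {A : Matrix (Fin 4) (Fin 4) ℂ} (h : HP A) (z : ℂ) (hz : z ∈ spectrum ℂ A) :
    z ^ 4 - ((pm A ![0] + pm A ![1] + pm A ![2] + pm A ![3]) : ℝ) * z ^ 3 + ((pm A ![0, 1] + pm A ![0, 2] + pm A ![0, 3] + pm A ![1, 2] + pm A ![1, 3] + pm A ![2, 3]) : ℝ) * z ^ 2 - ((pm A ![0, 1, 2] + pm A ![0, 1, 3] + pm A ![0, 2, 3] + pm A ![1, 2, 3]) : ℝ) * z + ((pm A ![0, 1, 2, 3]) : ℝ) = 0 := by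
  rw [← spec_iff A z hz]
  push_cast
  rw [pm_eq h ![0] (by decide), pm_eq h ![1] (by decide), pm_eq h ![2] (by decide), pm_eq h ![3] (by decide), pm_eq h ![0, 1] (by decide), pm_eq h ![0, 2] (by decide), pm_eq h ![0, 3] (by decide), pm_eq h ![1, 2] (by decide), pm_eq h ![1, 3] (by decide), pm_eq h ![2, 3] (by decide), pm_eq h ![0, 1, 2] (by decide), pm_eq h ![0, 1, 3] (by decide), pm_eq h ![0, 2, 3] (by decide), pm_eq h ![1, 2, 3] (by decide), pm_eq h ![0, 1, 2, 3] (by decide)]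
  (repeat rw [Pool.Agent.H.MP_25f4f2_al.det4]); (repeat rw [Matrix.det_fin_three]); (repeat rw [Matrix.det_fin_two]); (repeat rw [Matrix.det_fin_one]); simp
  try ring

lemma stable4 {A : Matrix (Fin 4) (Fin 4) ℂ} (h : HP A) (h' : HS A) (z : ℂ)
    (hz : z ∈ spectrum ℂ A) : 0 < z.re := by
  have hc := char4 h z hz
  have p0 := pm_pos h ![0] (by decide)
  have p1 := pm_pos h ![1] (by decide)
  have p2 := pm_pos h ![2] (by decide)
  have p3 := pm_pos h ![3] (by decide)
  have p01 := pm_pos h ![0, 1] (by decide)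
  have p02 := pm_pos h ![0, 2] (by decide)
  have p03 := pm_pos h ![0, 3] (by decide)
  have p12 := pm_pos h ![1, 2] (by decide)
  have p13 := pm_pos h ![1, 3] (by decide)
  have p23 := pm_pos h ![2, 3] (by decide)
  have p012 := pm_pos h ![0, 1, 2] (by decide)
  have p013 := pm_pos h ![0, 1, 3] (by decide)
  have p023 := pm_pos h ![0, 2, 3] (by decide)
  have p123 := pm_pos h ![1, 2, 3] (by decide)
  have p0123 := pm_pos h ![0, 1, 2, 3] (by decide)
  have s0_1 := sub0 h h' ![0] ![1] ![0, 1] (by decide)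
    (by (repeat rw [Pool.Agent.H.MP_25f4f2_al.det4]); (repeat rw [Matrix.det_fin_three]); (repeat rw [Matrix.det_fin_two]); (repeat rw [Matrix.det_fin_one]); simp; try ring)
  have s0_2 := sub0 h h' ![0] ![2] ![0, 2] (by decide)
    (by (repeat rw [Pool.Agent.H.MP_25f4f2_al.det4]); (repeat rw [Matrix.det_fin_three]); (repeat rw [Matrix.det_fin_two]); (repeat rw [Matrix.det_fin_one]); simp; try ring)
  have s0_3 := sub0 h h' ![0] ![3] ![0, 3] (by decide)
    (by (repeat rw [Pool.Agent.H.MP_25f4f2_al.det4]); (repeat rw [Matrix.det_fin_three]); (repeat rw [Matrix.det_fin_two]); (repeat rw [Matrix.det_fin_one]); simp; try ring)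
  have s1_2 := sub0 h h' ![1] ![2] ![1, 2] (by decide)
    (by (repeat rw [Pool.Agent.H.MP_25f4f2_al.det4]); (repeat rw [Matrix.det_fin_three]); (repeat rw [Matrix.det_fin_two]); (repeat rw [Matrix.det_fin_one]); simp; try ring)
  have s1_3 := sub0 h h' ![1] ![3] ![1, 3] (by decide)
    (by (repeat rw [Pool.Agent.H.MP_25f4f2_al.det4]); (repeat rw [Matrix.det_fin_three]); (repeat rw [Matrix.det_fin_two]); (repeat rw [Matrix.det_fin_one]); simp; try ring)
  have s2_3 := sub0 h h' ![2] ![3] ![2, 3] (by decide)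
    (by (repeat rw [Pool.Agent.H.MP_25f4f2_al.det4]); (repeat rw [Matrix.det_fin_three]); (repeat rw [Matrix.det_fin_two]); (repeat rw [Matrix.det_fin_one]); simp; try ring)
  have s01_02 := sub1 h h' ![0, 1] ![0, 2] ![0] ![0, 1, 2] (by decide)
    (by (repeat rw [Pool.Agent.H.MP_25f4f2_al.det4]); (repeat rw [Matrix.det_fin_three]); (repeat rw [Matrix.det_fin_two]); (repeat rw [Matrix.det_fin_one]); simp; ring)
  have s01_03 := sub1 h h' ![0, 1] ![0, 3] ![0] ![0, 1, 3] (by decide)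
    (by (repeat rw [Pool.Agent.H.MP_25f4f2_al.det4]); (repeat rw [Matrix.det_fin_three]); (repeat rw [Matrix.det_fin_two]); (repeat rw [Matrix.det_fin_one]); simp; ring)
  have s02_03 := sub1 h h' ![0, 2] ![0, 3] ![0] ![0, 2, 3] (by decide)
    (by (repeat rw [Pool.Agent.H.MP_25f4f2_al.det4]); (repeat rw [Matrix.det_fin_three]); (repeat rw [Matrix.det_fin_two]); (repeat rw [Matrix.det_fin_one]); simp; ring)
  have s01_12 := sub1 h h' ![0, 1] ![1, 2] ![1] ![0, 1, 2] (by decide)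
    (by (repeat rw [Pool.Agent.H.MP_25f4f2_al.det4]); (repeat rw [Matrix.det_fin_three]); (repeat rw [Matrix.det_fin_two]); (repeat rw [Matrix.det_fin_one]); simp; ring)
  have s01_13 := sub1 h h' ![0, 1] ![1, 3] ![1] ![0, 1, 3] (by decide)
    (by (repeat rw [Pool.Agent.H.MP_25f4f2_al.det4]); (repeat rw [Matrix.det_fin_three]); (repeat rw [Matrix.det_fin_two]); (repeat rw [Matrix.det_fin_one]); simp; ring)
  have s12_13 := sub1 h h' ![1, 2] ![1, 3] ![1] ![1, 2, 3] (by decide)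
    (by (repeat rw [Pool.Agent.H.MP_25f4f2_al.det4]); (repeat rw [Matrix.det_fin_three]); (repeat rw [Matrix.det_fin_two]); (repeat rw [Matrix.det_fin_one]); simp; ring)
  have s02_12 := sub1 h h' ![0, 2] ![1, 2] ![2] ![0, 1, 2] (by decide)
    (by (repeat rw [Pool.Agent.H.MP_25f4f2_al.det4]); (repeat rw [Matrix.det_fin_three]); (repeat rw [Matrix.det_fin_two]); (repeat rw [Matrix.det_fin_one]); simp; ring)
  have s02_23 := sub1 h h' ![0, 2] ![2, 3] ![2] ![0, 2, 3] (by decide)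
    (by (repeat rw [Pool.Agent.H.MP_25f4f2_al.det4]); (repeat rw [Matrix.det_fin_three]); (repeat rw [Matrix.det_fin_two]); (repeat rw [Matrix.det_fin_one]); simp; ring)
  have s12_23 := sub1 h h' ![1, 2] ![2, 3] ![2] ![1, 2, 3] (by decide)
    (by (repeat rw [Pool.Agent.H.MP_25f4f2_al.det4]); (repeat rw [Matrix.det_fin_three]); (repeat rw [Matrix.det_fin_two]); (repeat rw [Matrix.det_fin_one]); simp; ring)
  have s03_13 := sub1 h h' ![0, 3] ![1, 3] ![3] ![0, 1, 3] (by decide)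
    (by (repeat rw [Pool.Agent.H.MP_25f4f2_al.det4]); (repeat rw [Matrix.det_fin_three]); (repeat rw [Matrix.det_fin_two]); (repeat rw [Matrix.det_fin_one]); simp; ring)
  have s03_23 := sub1 h h' ![0, 3] ![2, 3] ![3] ![0, 2, 3] (by decide)
    (by (repeat rw [Pool.Agent.H.MP_25f4f2_al.det4]); (repeat rw [Matrix.det_fin_three]); (repeat rw [Matrix.det_fin_two]); (repeat rw [Matrix.det_fin_one]); simp; ring)
  have s13_23 := sub1 h h' ![1, 3] ![2, 3] ![3] ![1, 2, 3] (by decide)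
    (by (repeat rw [Pool.Agent.H.MP_25f4f2_al.det4]); (repeat rw [Matrix.det_fin_three]); (repeat rw [Matrix.det_fin_two]); (repeat rw [Matrix.det_fin_one]); simp; ring)
  have s012_013 := sub1 h h' ![0, 1, 2] ![0, 1, 3] ![0, 1] ![0, 1, 2, 3] (by decide)
    (by (repeat rw [Pool.Agent.H.MP_25f4f2_al.det4]); (repeat rw [Matrix.det_fin_three]); (repeat rw [Matrix.det_fin_two]); (repeat rw [Matrix.det_fin_one]); simp; ring)
  have s012_023 := sub1 h h' ![0, 1, 2] ![0, 2, 3] ![0, 2] ![0, 1, 2, 3] (by decide)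
    (by (repeat rw [Pool.Agent.H.MP_25f4f2_al.det4]); (repeat rw [Matrix.det_fin_three]); (repeat rw [Matrix.det_fin_two]); (repeat rw [Matrix.det_fin_one]); simp; ring)
  have s013_023 := sub1 h h' ![0, 1, 3] ![0, 2, 3] ![0, 3] ![0, 1, 2, 3] (by decide)
    (by (repeat rw [Pool.Agent.H.MP_25f4f2_al.det4]); (repeat rw [Matrix.det_fin_three]); (repeat rw [Matrix.det_fin_two]); (repeat rw [Matrix.det_fin_one]); simp; ring)
  have s012_123 := sub1 h h' ![0, 1, 2] ![1, 2, 3] ![1, 2] ![0, 1, 2, 3] (by decide)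
    (by (repeat rw [Pool.Agent.H.MP_25f4f2_al.det4]); (repeat rw [Matrix.det_fin_three]); (repeat rw [Matrix.det_fin_two]); (repeat rw [Matrix.det_fin_one]); simp; ring)
  have s013_123 := sub1 h h' ![0, 1, 3] ![1, 2, 3] ![1, 3] ![0, 1, 2, 3] (by decide)
    (by (repeat rw [Pool.Agent.H.MP_25f4f2_al.det4]); (repeat rw [Matrix.det_fin_three]); (repeat rw [Matrix.det_fin_two]); (repeat rw [Matrix.det_fin_one]); simp; ring)
  have s023_123 := sub1 h h' ![0, 2, 3] ![1, 2, 3] ![2, 3] ![0, 1, 2, 3] (by decide)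
    (by (repeat rw [Pool.Agent.H.MP_25f4f2_al.det4]); (repeat rw [Matrix.det_fin_three]); (repeat rw [Matrix.det_fin_two]); (repeat rw [Matrix.det_fin_one]); simp; ring)
  have t0_12 := chain0 p0 p1 p12 s0_1 s01_12
  have t0_13 := chain0 p0 p1 p13 s0_1 s01_13
  have t0_23 := chain0 p0 p2 p23 s0_2 s02_23
  have t1_02 := chain0 p1 p0 p02 (s0_1.trans_eq (mul_comm _ _)) s01_02
  have t1_03 := chain0 p1 p0 p03 (s0_1.trans_eq (mul_comm _ _)) s01_03
  have t1_23 := chain0 p1 p2 p23 s1_2 s12_23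
  have t2_01 := chain0 p2 p0 p01 (s0_2.trans_eq (mul_comm _ _)) (s01_02.trans_eq (mul_comm _ _))
  have t2_03 := chain0 p2 p0 p03 (s0_2.trans_eq (mul_comm _ _)) s02_03
  have t2_13 := chain0 p2 p1 p13 (s1_2.trans_eq (mul_comm _ _)) s12_13
  have t3_01 := chain0 p3 p0 p01 (s0_3.trans_eq (mul_comm _ _)) (s01_03.trans_eq (mul_comm _ _))
  have t3_02 := chain0 p3 p0 p02 (s0_3.trans_eq (mul_comm _ _)) (s02_03.trans_eq (mul_comm _ _))
  have t3_12 := chain0 p3 p1 p12 (s1_3.trans_eq (mul_comm _ _)) (s12_13.trans_eq (mul_comm _ _))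
  have r01 := chain1 p0 p02 p023 s01_02 s012_023
  have r02 := chain1 p0 p01 p013 (s01_02.trans_eq (mul_comm _ _)) s012_013
  have r03 := chain1 p0 p01 p012 (s01_03.trans_eq (mul_comm _ _)) (s012_013.trans_eq (mul_comm _ _))
  have r10 := chain1 p1 p12 p123 s01_12 s012_123
  have r12 := chain1 p1 p01 p013 (s01_12.trans_eq (mul_comm _ _)) s012_013
  have r13 := chain1 p1 p01 p012 (s01_13.trans_eq (mul_comm _ _)) (s012_013.trans_eq (mul_comm _ _))
  have r20 := chain1 p2 p12 p123 s02_12 s012_123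
  have r21 := chain1 p2 p02 p023 (s02_12.trans_eq (mul_comm _ _)) s012_023
  have r23 := chain1 p2 p02 p012 (s02_23.trans_eq (mul_comm _ _)) (s012_023.trans_eq (mul_comm _ _))
  have r30 := chain1 p3 p13 p123 s03_13 s013_123
  have r31 := chain1 p3 p03 p023 (s03_13.trans_eq (mul_comm _ _)) s013_023
  have r32 := chain1 p3 p03 p013 (s03_23.trans_eq (mul_comm _ _)) (s013_023.trans_eq (mul_comm _ _))
  refine hur4 _ _ _ _ (by positivity) (by positivity) (by positivity) p0123 ?_ z hc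
  generalize pm A ![0] = q0, pm A ![1] = q1, pm A ![2] = q2, pm A ![3] = q3, pm A ![0, 1] = q01, pm A ![0, 2] = q02, pm A ![0, 3] = q03, pm A ![1, 2] = q12, pm A ![1, 3] = q13, pm A ![2, 3] = q23, pm A ![0, 1, 2] = q012, pm A ![0, 1, 3] = q013, pm A ![0, 2, 3] = q023, pm A ![1, 2, 3] = q123, pm A ![0, 1, 2, 3] = q0123 at *
  have hc0 : 0 < (q012 + q013 + q023 + q123) := by positivity
  have k1 : 3 * (q012 + q013 + q023 + q123) + (q0 * q01 + q0 * q02 + q0 * q03 + q1 * q01 + q1 * q12 + q1 * q13 + q2 * q02 + q2 * q12 + q2 * q23 + q3 * q03 + q3 * q13 + q3 * q23) ≤ (q0 + q1 + q2 + q3) * (q01 + q02 + q03 + q12 + q13 + q23) := by linarith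
  have k2 := mul_le_mul_of_nonneg_left k1 hc0.le
  have k3 : (q0 + q1 + q2 + q3) ^ 2 * q0123 ≤ (q012 + q013 + q023 + q123) * (q0 * q01 + q0 * q02 + q0 * q03 + q1 * q01 + q1 * q12 + q1 * q13 + q2 * q02 + q2 * q12 + q2 * q23 + q3 * q03 + q3 * q13 + q3 * q23) := by
    have := mul_le_mul_of_nonneg_left r01 p0.le
    have := mul_le_mul_of_nonneg_left r10 p0.le
    have := mul_pos (mul_pos p0 p01) p013
    have := mul_pos (mul_pos p0 p01) p012
    have := mul_le_mul_of_nonneg_left r02 p0.le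
    have := mul_le_mul_of_nonneg_left r20 p0.le
    have := mul_pos (mul_pos p0 p02) p023
    have := mul_pos (mul_pos p0 p02) p012
    have := mul_le_mul_of_nonneg_left r03 p0.le
    have := mul_le_mul_of_nonneg_left r30 p0.le
    have := mul_pos (mul_pos p0 p03) p023
    have := mul_pos (mul_pos p0 p03) p013
    have := mul_pos (mul_pos p0 p0) p0123
    have := mul_le_mul_of_nonneg_left r10 p1.le
    have := mul_le_mul_of_nonneg_left r01 p1.le
    have := mul_pos (mul_pos p1 p01) p013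
    have := mul_pos (mul_pos p1 p01) p012
    have := mul_le_mul_of_nonneg_left r12 p1.le
    have := mul_le_mul_of_nonneg_left r21 p1.le
    have := mul_pos (mul_pos p1 p12) p123
    have := mul_pos (mul_pos p1 p12) p012
    have := mul_le_mul_of_nonneg_left r13 p1.le
    have := mul_le_mul_of_nonneg_left r31 p1.le
    have := mul_pos (mul_pos p1 p13) p123
    have := mul_pos (mul_pos p1 p13) p013
    have := mul_pos (mul_pos p1 p1) p0123
    have := mul_le_mul_of_nonneg_left r20 p2.le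
    have := mul_le_mul_of_nonneg_left r02 p2.le
    have := mul_pos (mul_pos p2 p02) p023
    have := mul_pos (mul_pos p2 p02) p012
    have := mul_le_mul_of_nonneg_left r21 p2.le
    have := mul_le_mul_of_nonneg_left r12 p2.le
    have := mul_pos (mul_pos p2 p12) p123
    have := mul_pos (mul_pos p2 p12) p012
    have := mul_le_mul_of_nonneg_left r23 p2.le
    have := mul_le_mul_of_nonneg_left r32 p2.le
    have := mul_pos (mul_pos p2 p23) p123
    have := mul_pos (mul_pos p2 p23) p023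
    have := mul_pos (mul_pos p2 p2) p0123
    have := mul_le_mul_of_nonneg_left r30 p3.le
    have := mul_le_mul_of_nonneg_left r03 p3.le
    have := mul_pos (mul_pos p3 p03) p023
    have := mul_pos (mul_pos p3 p03) p013
    have := mul_le_mul_of_nonneg_left r31 p3.le
    have := mul_le_mul_of_nonneg_left r13 p3.le
    have := mul_pos (mul_pos p3 p13) p123
    have := mul_pos (mul_pos p3 p13) p013
    have := mul_le_mul_of_nonneg_left r32 p3.le
    have := mul_le_mul_of_nonneg_left r23 p3.le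
    have := mul_pos (mul_pos p3 p23) p123
    have := mul_pos (mul_pos p3 p23) p023
    have := mul_pos (mul_pos p3 p3) p0123
    linarith
  have := mul_pos hc0 hc0
  linarith

lemma stable {n : ℕ} (h1 : 1 ≤ n) (h4 : n ≤ 4) {A : Matrix (Fin n) (Fin n) ℂ} (h : HP A)
    (h' : HS A) (z : ℂ) (hz : z ∈ spectrum ℂ A) : 0 < z.re := by
  interval_cases n
  exacts [stable1 h h' z hz, stable2 h h' z hz, stable3 h h' z hz, stable4 h h' z hz]

end Pool.Agent.H.MP_f9eabf_al
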